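import Mathlib
import Pool.Agent.H719Z.Euc.Defs
import Pool.Agent.H719Z.Euc.Final

set_option autoImplicit false

open Pool.Agent.H719Z.Euc

theorem Pool.Agent.Results.MP_14e93c_nt.ClassNumberOne.result
    (R : Type) [CommRing R] [IsDedekindDomain R] [Ring.HasFiniteQuotients R]
    (K : Type) [Field K] [Algebra R K] [IsFractionRing R K]
    (n : ℕ) (a : Fin n → Fin n → R) :
    Anisotropic K a → IsEuclideanForm K a → ClassNumberOne K a :=
  classNumberOne a
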